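import Pool.Agent.Lib.MP_5c318e_ag.Np.Noe
import Pool.Agent.Lib.MP_5c318e_ag.S.Loc

/-! Lists of generators made of units; a projection stays one over a smaller base. -/

set_option autoImplicit false

namespace Pool.Agent.Lib.MP_5c318e_ag

open Set

noncomputable section

/-- products of a list without common zero with units generate a ring generated by units -/
theorem Ge.exists_units {O : Type} [CommRing O] [Algebra ℂ O] [Algebra.FiniteType ℂ O] {n : ℕ}
    (ρ : Fin n → O) (hρ : ∀ p : Pt O, ∃ a, p (ρ a) ≠ 0)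
    (hu : Algebra.adjoin ℂ {u : O | IsUnit u} = ⊤) :
    ∃ (nb : ℕ) (r : Fin nb → O), (∀ j, IsUnit (r j)) ∧
      (∀ p : Pt O, 1 ≤ ∑ x : Fin n × Fin nb, ‖p (ρ x.1 * r x.2)‖ ^ 2) ∧
      Algebra.adjoin ℂ (range fun x : Fin n × Fin nb => ρ x.1 * r x.2) = ⊤ := by
  classical
  have h1 : Ideal.span (range ρ) = ⊤ := by
    by_contra hn
    obtain ⟨p, hp⟩ := Pt.exists_zero hn
    obtain ⟨a, ha⟩ := hρ p
    exact ha (hp _ (Ideal.subset_span ⟨a, rfl⟩))
  obtain ⟨c, hc⟩ := Ideal.mem_span_range_iff_exists_fun.1 ((Ideal.eq_top_iff_one _).1 h1)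
  have hs : ∀ y : O, y ∈ Submodule.span ℂ {u : O | IsUnit u} := fun y => by
    have : y ∈ Subalgebra.toSubmodule (Algebra.adjoin ℂ {u : O | IsUnit u}) := by
      rw [hu]; trivial
    rw [Algebra.adjoin_eq_span] at this
    refine Submodule.span_mono (fun u hu => ?_) this
    exact (Submonoid.closure_le (S := IsUnit.submonoid O)).2 (fun _ h => h) hu
  obtain ⟨G, hG⟩ := Algebra.FiniteType.out (R := ℂ) (A := O)
  choose T hT1 hT2 using fun y => Submodule.mem_span_finite_of_mem_span (hs y)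
  let Y : Finset O := (insert 1 G ×ˢ Finset.univ).image fun x : O × Fin n => c x.2 * x.1
  let R : Finset O := Y.biUnion T
  let r0 : Fin R.card → O := fun j => R.equivFin.symm j
  have r0u : ∀ j, IsUnit (r0 j) := fun j => by
    obtain ⟨y, -, hy⟩ := Finset.mem_biUnion.1 (R.equivFin.symm j).2
    exact hT1 y hy
  have key : ∀ g ∈ insert 1 G,
      g ∈ Submodule.span ℂ (range fun x : Fin n × Fin R.card => ρ x.1 * r0 x.2) := fun g hg => by
    have e : g = ∑ a, ρ a * (c a * g) := by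
      conv_lhs => rw [← one_mul g, ← hc, Finset.sum_mul]
      exact Finset.sum_congr rfl fun a _ => by ring
    rw [e]
    refine Submodule.sum_mem _ fun a _ => ?_
    have hy : c a * g ∈ Y := Finset.mem_image.2 ⟨(g, a), by simpa using hg, rfl⟩
    have h2 := Submodule.mem_map_of_mem (f := LinearMap.mulLeft ℂ (ρ a)) (hT2 (c a * g))
    rw [Submodule.map_span] at h2
    refine Submodule.span_mono ?_ h2
    rintro _ ⟨u, hu, rfl⟩
    exact ⟨(a, R.equivFin ⟨u, Finset.mem_biUnion.2 ⟨_, hy, hu⟩⟩), by simp [r0]⟩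
  obtain ⟨l, hl⟩ := (Submodule.mem_span_range_iff_exists_fun ℂ).1 (key 1 (Finset.mem_insert_self _ _))
  obtain ⟨A, hA, A1⟩ : ∃ A : ℝ, ∑ x, ‖l x‖ ^ 2 ≤ A ^ 2 ∧ 0 < A := by
    have : 0 ≤ ∑ x, ‖l x‖ ^ 2 := Finset.sum_nonneg fun _ _ => by positivity
    exact ⟨∑ x, ‖l x‖ ^ 2 + 1, by nlinarith, by linarith⟩
  have A0 : (A : ℂ) ≠ 0 := by exact_mod_cast A1.ne'
  refine ⟨R.card, fun j => (A : ℂ) • r0 j, fun j => ?_, fun p => ?_, ?_⟩
  · show IsUnit ((A : ℂ) • r0 j)
    rw [Algebra.smul_def]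
    exact ((IsUnit.mk0 _ A0).map _).mul (r0u j)
  · have e1 : (1 : ℝ) ≤ ∑ x, ‖l x‖ * ‖p (ρ x.1 * r0 x.2)‖ := by
      have := congrArg p hl
      rw [map_sum, map_one] at this
      calc (1 : ℝ) = ‖∑ x, p (l x • (ρ x.1 * r0 x.2))‖ := by rw [this, norm_one]
        _ ≤ _ := (norm_sum_le _ _).trans (le_of_eq (Finset.sum_congr rfl fun x _ => by
          rw [map_smul, norm_smul]))
    have e2 := Finset.sum_mul_sq_le_sq_mul_sq Finset.univ (fun x => ‖l x‖)
      fun x : Fin n × Fin R.card => ‖p (ρ x.1 * r0 x.2)‖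
    have e3 : ∑ x : Fin n × Fin R.card, ‖p (ρ x.1 * (A : ℂ) • r0 x.2)‖ ^ 2 =
        A ^ 2 * ∑ x : Fin n × Fin R.card, ‖p (ρ x.1 * r0 x.2)‖ ^ 2 := by
      rw [Finset.mul_sum]
      refine Finset.sum_congr rfl fun x _ => ?_
      rw [mul_smul_comm, map_smul, norm_smul, mul_pow, Complex.norm_real, Real.norm_eq_abs, sq_abs]
    have e4 : 0 ≤ ∑ x : Fin n × Fin R.card, ‖p (ρ x.1 * r0 x.2)‖ ^ 2 :=
      Finset.sum_nonneg fun _ _ => by positivity
    rw [e3]
    nlinarith [mul_le_mul_of_nonneg_right hA e4]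
  · rw [eq_top_iff, ← hG, Algebra.adjoin_le_iff]
    intro g hg
    refine (Submodule.span_le (p := Subalgebra.toSubmodule (Algebra.adjoin ℂ
      (range fun x : Fin n × Fin R.card => ρ x.1 * (A : ℂ) • r0 x.2)))).2 ?_
      (key g (Finset.mem_insert_of_mem hg))
    rintro _ ⟨x, rfl⟩
    have : ρ x.1 * r0 x.2 = (A : ℂ)⁻¹ • (ρ x.1 * (A : ℂ) • r0 x.2) := by
      rw [mul_smul_comm, smul_smul, inv_mul_cancel₀ A0, one_smul]
    show ρ x.1 * r0 x.2 ∈ Algebra.adjoin ℂ _
    rw [this]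
    exact Subalgebra.smul_mem _ (Algebra.subset_adjoin (mem_range_self x)) _

variable {δ ν K M α : Type} [Fintype δ] [DecidableEq δ] [Fintype ν] [DecidableEq ν]
  [Field K] [Algebra ℂ K] [Field M] [Algebra ℂ M] [Algebra K M] [IsScalarTower ℂ K M]

/-- the projection over a smaller base -/
theorem Noe.loc {B B' : Cht δ K} {T : Rel B ν M} {T' : Rel B' ν M} {h : B.O} (L : T'.Loc T h)
    {z : α → T.X.O} (N : Noe K T.inc ν z) {z' : α → T'.X.O} (hz : ∀ a, z' a = L.top.j (z a)) :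
    ∃ N' : Noe K T'.inc ν z', N'.h = L.base.j N.h := by
  obtain rfl : z' = fun a => L.top.j (z a) := funext hz
  refine ⟨{ l := fun j => L.top.j (N.l j), h := L.base.j N.h
            ne := fun e => N.ne (Subtype.ext (congrArg Subtype.val e :))
            inc_eq := fun r => T'.inc_eq r, gen := ?_, frac := T'.X.frac, mem := fun j => ?_
            basis := N.basis, dom := fun V h1 h2 => N.dom V (fun r => ?_) ?_ }, rfl⟩
  · rw [eq_top_iff]
    intro φ _
    obtain ⟨k, a, ha⟩ := L.top.inl φ φ.2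
    have h1 : L.top.j a ∈ Algebra.adjoin ℂ (range T'.inc ∪ range fun a => L.top.j (z a)) := by
      have : a ∈ Algebra.adjoin ℂ (range T.inc ∪ range z) := by rw [N.gen]; trivial
      have h2 := Subalgebra.mem_map.2 ⟨a, this, (rfl : L.top.j a = L.top.j a)⟩
      rw [AlgHom.map_adjoin] at h2
      refine Algebra.adjoin_mono ?_ h2
      rintro _ ⟨_, ⟨r, rfl⟩ | ⟨r, rfl⟩, rfl⟩
      · exact Or.inl ⟨_, L.comm r⟩
      · exact Or.inr ⟨r, rfl⟩
    have e : φ = L.top.j a * T'.inc ⟨_, L.base.inv⟩ ^ k := Subtype.ext (by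
      have h0 := L.top.ne'
      rw [MulMemClass.coe_mul, SubmonoidClass.coe_pow, T'.inc_eq, map_inv₀, ← T.inc_eq,
        Subalgebra.coe_inclusion, ← ha, SubmonoidClass.coe_pow, mul_assoc, ← mul_pow,
        mul_inv_cancel₀ h0, one_pow, mul_one])
    rw [e]
    exact mul_mem h1 (pow_mem (Algebra.subset_adjoin (mem_union_left _ (mem_range_self _))) k)
  · have h2 := Submodule.mem_map_of_mem
      (f := (L.top.j : T.X.O →+* T'.X.O).toAddMonoidHom.toIntLinearMap) (N.mem j)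
    rw [Submodule.map_span, ← range_comp] at h2
    exact h2
  · have := h1 (L.base.j r)
    rwa [L.comm] at this
  · rwa [L.comm] at h2

end

end Pool.Agent.Lib.MP_5c318e_ag
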