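import Pool.Agent.Lib.MP_5c318e_ag.Tw.TDefs

/-! A tower density stays one after a change of the parameter ring. -/

set_option autoImplicit false

namespace Pool.Agent.Lib.MP_5c318e_ag.Tw

open MeasureTheory Metric

theorem Tow.map {R R' P P' ι : Type} [CommRing R] [CommRing R'] [Fintype ι] {ev : P → R →+* ℂ}
    {ev' : P' → R' →+* ℂ} {s0 : P → ℝ} {s0' : P' → ℝ} {Δ : MvPolynomial ι R}
    {Λ : P → (ι → ℂ) → ℝ} {K : ℝ} {M : ℕ} (h : Tow ev s0 Δ Λ K M) (j : R →+* R') (ρ : P' → P)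
    (hev : ∀ b, (ev' b).comp j = ev (ρ b)) (h0 : ∀ b, 0 ≤ s0 b) (h0' : ∀ b, 0 ≤ s0' b) {C : ℝ}
    (hC : 0 ≤ C) (hs : ∀ b, s0 (ρ b) ≤ C * s0' b + C) :
    ∃ (K' : ℝ) (M' : ℕ), Tow ev' s0' (MvPolynomial.map j Δ) (fun b => Λ (ρ b)) K' M' := by
  have e : ∀ b a (q : MvPolynomial ι R), MvPolynomial.eval₂ (ev' b) a (MvPolynomial.map j q) =
      MvPolynomial.eval₂ (ev (ρ b)) a q := fun b a q => by rw [MvPolynomial.eval₂_map, hev]
  have l0 : ∀ b a, 0 ≤ Real.log (1 + ‖a‖ + ‖MvPolynomial.eval₂ (ev (ρ b)) a Δ‖⁻¹) := fun b a =>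
    Real.log_nonneg (by have := norm_nonneg a; have := inv_nonneg.2 (norm_nonneg
      (MvPolynomial.eval₂ (ev (ρ b)) a Δ)); linarith)
  have z1 : ∀ b a, sz ev' s0' (MvPolynomial.map j Δ) b a = sz ev s0 Δ (ρ b) a - s0 (ρ b) + s0' b :=
    fun b a => by simp only [sz, e]; ring
  have z2 : ∀ b a, 2 ≤ sz ev' s0' (MvPolynomial.map j Δ) b a := fun b a => by
    have := l0 b a; have := h0' b; simp only [sz, e]; linarith
  have z0 : ∀ b a, 0 < sz ev s0 Δ (ρ b) a := fun b a => by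
    have := l0 b a; have := h0 (ρ b); simp only [sz]; linarith
  have z3 : ∀ b a, sz ev s0 Δ (ρ b) a ≤ (1 + C) * sz ev' s0' (MvPolynomial.map j Δ) b a :=
    fun b a => by
      have := l0 b a; have := h0' b; have := hs b
      simp only [sz, e]
      nlinarith
  obtain ⟨M1, hM⟩ := pow_unbounded_of_one_lt ((1 + C) ^ M) (one_lt_two (α := ℝ))
  have z4 : ∀ b a, sz ev s0 Δ (ρ b) a ^ M ≤ sz ev' s0' (MvPolynomial.map j Δ) b a ^ (M1 + M) :=
    fun b a => by
      refine (pow_le_pow_left₀ (z0 b a).le (z3 b a) M).trans ?_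
      rw [mul_pow, pow_add]
      exact mul_le_mul_of_nonneg_right (hM.le.trans (pow_le_pow_left₀ zero_le_two (z2 b a) _))
        (pow_nonneg (by linarith [z2 b a]) _)
  have K1 := h.one_le
  have hK : K ≤ 1 + K * (1 + C) := by nlinarith
  refine ⟨1 + K * (1 + C), M1 + M, K1.trans hK, fun b => h.meas _,
    fun b a ha => h.pos _ a (e b a Δ ▸ ha), fun b a ha => ?_, ?_, fun b => ?_, fun b a ha => ?_⟩
  · rw [e] at ha
    refine (h.low _ a ha).trans (mul_le_mul_of_nonneg_right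
      (mul_le_mul_of_nonneg_right hK (h.pos _ a ha).le) ?_)
    exact Finset.prod_nonneg fun _ _ => by positivity
  · obtain ⟨N, hN, α, _, f, k, hf⟩ := h.alg
    refine ⟨N, hN, α, inferInstance, fun i => MvPolynomial.map j (f i), k, fun b a ha => ?_⟩
    simp only [e] at ha ⊢
    exact hf _ a ha
  · simp only [e]
    refine le_trans (lintegral_mono fun a => ?_) ((h.mass (ρ b)).trans (ENNReal.ofReal_le_ofReal hK))
    rcases le_total (Λ (ρ b) a) 0 with h1 | h1
    · rw [ENNReal.ofReal_of_nonpos (div_nonpos_of_nonpos_of_nonneg h1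
        (pow_nonneg (by linarith [z2 b a]) _))]
      exact zero_le
    · exact ENNReal.ofReal_le_ofReal (div_le_div_of_nonneg_left h1 (pow_pos (z0 b a) _) (z4 b a))
  · rw [e] at ha
    obtain ⟨J, Q, hQ, h1, h2⟩ := h.disc _ a ha
    have hJ : 0 ≤ J * Λ (ρ b) a := by
      by_contra hn
      have := mul_nonpos_of_nonpos_of_nonneg (not_le.1 hn).le (pow_pos (z0 b a) M).le
      linarith
    refine ⟨J, Q, hQ, h1.trans (mul_le_mul_of_nonneg_left (z4 b a) hJ), fun w hw => ?_⟩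
    obtain ⟨a1, a2, a3, a4⟩ := h2 w hw
    refine ⟨by rw [e]; exact a1, ?_, a3.trans (mul_le_mul_of_nonneg_right hK (h.pos _ a ha).le),
      a4.trans (mul_le_mul_of_nonneg_right hK (h.pos _ _ a1).le)⟩
    have b1 := z3 b a
    have b2 : s0' b ≤ sz ev' s0' (MvPolynomial.map j Δ) b a := by
      have := l0 b a; simp only [sz, e]; linarith
    have b3 := h0 (ρ b)
    rw [z1 b (Q w)]
    nlinarith [mul_le_mul_of_nonneg_left b1 (zero_le_one.trans K1)]

end Pool.Agent.Lib.MP_5c318e_ag.Tw
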