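import Pool.Agent.Lib.MP_5c318e_ag.Ge.LocX
import Pool.Agent.Lib.MP_5c318e_ag.Ge.TowMap
import Pool.Agent.Lib.MP_5c318e_ag.Ge.NoeMap
import Pool.Agent.Lib.MP_5c318e_ag.Np.Nrm
import Pool.Agent.Lib.MP_5c318e_ag.Np.Inf
import Pool.Agent.Lib.MP_5c318e_ag.Sx.SDefs
import Pool.Agent.Lib.MP_5c318e_ag.Tw.Main

/-! A smaller chart carries a tower, lists of generators and a projection. -/

set_option autoImplicit false
set_option linter.unusedSectionVars false

namespace Pool.Agent.Lib.MP_5c318e_ag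

open MeasureTheory Set Filter Topology

noncomputable section

variable {δ ν K M : Type} [Fintype δ] [DecidableEq δ] [Fintype ν] [DecidableEq ν]
  [Field K] [Algebra ℂ K] [Field M] [Algebra ℂ M] [Algebra K M] [IsScalarTower ℂ K M]

namespace Ge

theorem base_den {B : Cht δ K} (T : Rel B ν M) {G : Set M} (hG : ∀ g ∈ G, g ∈ T.X.O) {φ : M}
    (h : φ ∈ Algebra.adjoin K G) : ∃ c : B.O, c ≠ 0 ∧ algebraMap K M c * φ ∈ T.X.O := by
  have hb : ∀ c : B.O, algebraMap K M c ∈ T.X.O := fun c => T.inc_eq c ▸ (T.inc c).2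
  induction h using Algebra.adjoin_induction with
  | mem g hg => exact ⟨1, one_ne_zero, by simpa using hG g hg⟩
  | algebraMap k =>
    obtain ⟨a, b, h0, e⟩ := B.frac k
    exact ⟨b, h0, by rw [← map_mul, mul_comm, e]; exact hb a⟩
  | add x y _ _ hx hy =>
    obtain ⟨c, c0, hc⟩ := hx
    obtain ⟨e, e0, he⟩ := hy
    refine ⟨c * e, mul_ne_zero c0 e0, ?_⟩
    have := add_mem (mul_mem (hb e) hc) (mul_mem (hb c) he)
    convert this using 1
    push_cast
    ring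
  | mul x y _ _ hx hy =>
    obtain ⟨c, c0, hc⟩ := hx
    obtain ⟨e, e0, he⟩ := hy
    refine ⟨c * e, mul_ne_zero c0 e0, ?_⟩
    have := mul_mem hc he
    convert this using 1
    push_cast
    ring

/-- the ring of the chart lies in a localisation of `A` at one of its own elements -/
theorem exists_del {B : Cht δ K} (T : Rel B ν M) {A : Subalgebra K M}
    (hfr : ∀ φ, ∃ a ∈ A, ∃ b ∈ A, b ≠ 0 ∧ φ * b = a)
    (hA : ∀ φ ∈ A, ∃ c : B.O, c ≠ 0 ∧ algebraMap K M c * φ ∈ T.X.O) :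
    ∃ e : T.X.O, e ≠ 0 ∧ (e : M) ∈ A ∧ ∀ φ : T.X.O, ∃ n : ℕ, (e : M) ^ n * φ ∈ A := by
  classical
  choose a ha b hb b0 hab using hfr
  have h0 : ∏ u ∈ T.X.gens, b u ≠ 0 := Finset.prod_ne_zero_iff.2 fun u _ => b0 u
  have h1 : ∏ u ∈ T.X.gens, b u ∈ A := prod_mem fun u _ => hb u
  obtain ⟨c, c0, hc⟩ := hA _ h1
  have c1 : algebraMap K M c ≠ 0 := (map_ne_zero _).2 fun e => c0 (Subtype.ext e)
  have h2 : algebraMap K M c * ∏ u ∈ T.X.gens, b u ∈ A := mul_mem (A.algebraMap_mem _) h1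
  refine ⟨⟨_, hc⟩, fun e => mul_ne_zero c1 h0 (congrArg Subtype.val e), h2, fun φ => ?_⟩
  have : φ ∈ Algebra.adjoin ℂ (range fun u : T.X.gens => (u : T.X.O)) := T.X.adjoin_gens ▸ trivial
  show ∃ n : ℕ, (algebraMap K M c * ∏ u ∈ T.X.gens, b u) ^ n * φ ∈ A
  generalize hs : algebraMap K M c * ∏ u ∈ T.X.gens, b u = s at h2
  induction this using Algebra.adjoin_induction with
  | mem g hg =>
    obtain ⟨u, rfl⟩ := hg
    refine ⟨1, ?_⟩
    rw [pow_one, ← hs, ← Finset.mul_prod_erase _ _ u.2, mul_assoc, mul_right_comm,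
      mul_comm (b _), hab]
    exact mul_mem (A.algebraMap_mem _) (mul_mem (ha _) (prod_mem fun u _ => hb u))
  | algebraMap k =>
    refine ⟨0, ?_⟩
    rw [pow_zero, one_mul, Subalgebra.coe_algebraMap, IsScalarTower.algebraMap_apply ℂ K M]
    exact A.algebraMap_mem _
  | add x y _ _ hx hy =>
    obtain ⟨n, hn⟩ := hx
    obtain ⟨k, hk⟩ := hy
    refine ⟨n + k, ?_⟩
    have := add_mem (mul_mem (pow_mem h2 k) hn) (mul_mem (pow_mem h2 n) hk)
    convert this using 1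
    push_cast
    ring
  | mul x y _ _ hx hy =>
    obtain ⟨n, hn⟩ := hx
    obtain ⟨k, hk⟩ := hy
    refine ⟨n + k, ?_⟩
    have := mul_mem hn hk
    convert this using 1
    push_cast
    ring

theorem siz_res {B B' : Cht δ K} (j : B.O →ₐ[ℂ] B'.O) :
    ∃ C : ℝ, 0 ≤ C ∧ ∀ b : Pt B'.O, B.siz (b.res j) ≤ C * B'.siz b + C :=
  (Md.add B'.siz_nonneg (Md.sum B'.siz_nonneg B.gens fun a _ =>
    (B'.md (j a)).pow B'.siz_nonneg (fun _ => norm_nonneg _) 2)
    (Md.const B'.siz_nonneg 1)).log_le fun p => by positivity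

end Ge

/-- GEO -/
theorem Dat.exists_geo [Nonempty ν] (d : Dat Unit K ν M) (s : Finset K) (t : Finset M) {I : Type}
    [Finite I] (A : I → Subalgebra K M) (hfg : ∀ i, (A i).FG)
    (hfr : ∀ i φ, ∃ a ∈ A i, ∃ b ∈ A i, b ≠ 0 ∧ φ * b = a) :
    ∃ d' : Dat Unit K ν M, d.Re d' ∧ (∀ i, (d'.B.z i : K) = d.B.z i) ∧
      (∀ a ∈ s, a ∈ d'.B.O ∧ a⁻¹ ∈ d'.B.O) ∧ (∀ a ∈ t, a ∈ d'.T.X.O ∧ a⁻¹ ∈ d'.T.X.O) ∧
      (∀ i, ∀ φ ∈ A i, ∃ c : d'.B.O, c ≠ 0 ∧ algebraMap K M c * φ ∈ d'.T.X.O) ∧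
      (∀ i, ∃ σ : d'.T.X.O, IsUnit σ ∧ (σ : M) ∈ A i ∧
        ∀ φ : d'.T.X.O, ∃ e : ℕ, (σ : M) ^ e * φ ∈ A i) ∧ Nonempty d'.Geo := by
  classical
  have := Fintype.ofFinite I
  choose G hG using hfg
  let t1 : Finset M := insert (d.τ0 : M) (t ∪ Finset.univ.biUnion G)
  obtain ⟨B, T, hz, -, ht, S⟩ := d.T.shrink d.B.basis ∅ (t1 ∪ t1.image (·⁻¹))
  have ht1 : ∀ a ∈ t1, a ∈ T.X.O ∧ a⁻¹ ∈ T.X.O := fun a ha => ⟨ht _ (Finset.mem_union_left _ ha),
    ht _ (Finset.mem_union_right _ (Finset.mem_image_of_mem _ ha))⟩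
  have hA : ∀ i, ∀ φ ∈ A i, ∃ c : B.O, c ≠ 0 ∧ algebraMap K M c * φ ∈ T.X.O := fun i φ hφ =>
    Ge.base_den T.toRel (fun g hg => (ht1 g (Finset.mem_insert_of_mem (Finset.mem_union_right _
      (Finset.mem_biUnion.2 ⟨i, Finset.mem_univ _, hg⟩)))).1) (hG i ▸ hφ)
  choose e e0 eA he using fun i => Ge.exists_del T.toRel (hfr i) (hA i)
  let E : Finset T.X.O := (T.X.gens ∪ Finset.univ.image e).filter (· ≠ 0)
  choose! q q0 hq using fun (u : T.X.O) (h : u ≠ 0) => T.toRel.exists_dvd h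
  have g0 : T.finX.Δ * ∏ u ∈ E, q u ≠ 0 := mul_ne_zero T.finX.ne
    (Finset.prod_ne_zero_iff.2 fun u hu => q0 u (Finset.mem_filter.1 hu).2)
  have : CharZero B.O := charZero_of_injective_algebraMap (algebraMap ℂ B.O).injective
  obtain ⟨Δ, Λ, Kc, Mc, Δ0, hd, tow⟩ := Tw.exists_tow (fun b : Pt B.O => (b.hom : B.O →+* ℂ))
    B.siz_nonneg B.md g0
  obtain ⟨T2, L2, hx, hΔ⟩ := T.exists_locX Δ0 ((dvd_mul_right _ _).trans hd)
  have hE : ∀ u ∈ E, IsUnit (L2.j u) := fun u hu => by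
    refine isUnit_of_dvd_unit (map_dvd L2.j ((hq u (Finset.mem_filter.1 hu).2).trans ?_)) L2.unit
    exact map_dvd (MvPolynomial.eval₂Hom _ _)
      (((Finset.dvd_prod_of_mem q hu).trans (dvd_mul_left _ _)).trans hd)
  let iv : T2.X.O := ⟨_, L2.inv⟩
  have hiv : L2.j (T.toRel.px Δ) * iv = 1 := Subtype.ext (mul_inv_cancel₀ L2.ne')
  have hpx : T2.toRel.px Δ = L2.j (T.toRel.px Δ) :=
    Subtype.ext (by rw [T2.toRel.px_coe, hx, ← T.toRel.px_coe]; rfl)
  have hu : Algebra.adjoin ℂ {u : T2.X.O | IsUnit u} = ⊤ := by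
    rw [eq_top_iff]
    intro φ _
    obtain ⟨k, a, ha⟩ := L2.inl φ φ.2
    have h1 : L2.j a ∈ Algebra.adjoin ℂ {u : T2.X.O | IsUnit u} := by
      have : a ∈ Algebra.adjoin ℂ (range fun u : T.X.gens => (u : T.X.O)) :=
        T.X.adjoin_gens ▸ trivial
      have h2 := Subalgebra.mem_map.2 ⟨a, this, (rfl : L2.j a = L2.j a)⟩
      rw [AlgHom.map_adjoin] at h2
      refine Algebra.adjoin_le ?_ h2
      rintro _ ⟨_, ⟨u, rfl⟩, rfl⟩
      by_cases h0 : (u : T.X.O) = 0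
      · simp only [h0, map_zero]; exact zero_mem _
      · exact Algebra.subset_adjoin
          (hE u (Finset.mem_filter.2 ⟨Finset.mem_union_left _ u.2, h0⟩))
    have h3 : φ * L2.j (T.toRel.px Δ) ^ k = L2.j a := Subtype.ext ha
    have : φ = L2.j a * iv ^ k := by rw [← h3, mul_assoc, ← mul_pow, hiv, one_pow, mul_one]
    rw [this]
    have h4 : iv ∈ {u : T2.X.O | IsUnit u} := IsUnit.of_mul_eq_one_right _ hiv
    exact mul_mem h1 (pow_mem (Algebra.subset_adjoin h4) k)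
  obtain ⟨N, hN, α, _, f, jj, hf⟩ := tow.alg
  let ρ : Fin (Fintype.card α) → T2.X.O := fun a =>
    T2.toRel.px (f ((Fintype.equivFin α).symm a)) * iv ^ jj
  have hne : ∀ p : Pt T2.X.O, MvPolynomial.eval₂ ((p.res T2.inc).hom : B.O →+* ℂ)
      (fun i => p (T2.X.z (Sum.inr i))) Δ ≠ 0 := fun p => by
    rw [← T2.toRel.px_pt, hpx]
    exact (L2.unit.map p).ne_zero
  have hρ : ∀ p : Pt T2.X.O, Λ (p.res T2.inc) (fun i => p (T2.X.z (Sum.inr i))) ^ N =
      ∑ a, ‖p (ρ a)‖ ^ 2 := fun p => by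
    refine (hf _ _ (hne p)).trans ?_
    rw [← (Fintype.equivFin α).symm.sum_comp]
    refine Finset.sum_congr rfl fun a _ => ?_
    have h1 : p iv = (p (T2.toRel.px Δ))⁻¹ :=
      eq_inv_of_mul_eq_one_right (by rw [← map_mul, hpx, hiv, map_one])
    simp only [ρ, map_mul, map_pow, h1, T2.toRel.px_pt, div_eq_mul_inv, inv_pow]
  obtain ⟨nb, r, ru, one, gen⟩ := Ge.exists_units ρ (fun p => by
    by_contra! hn
    have h1 := hρ p
    simp only [hn, norm_zero, ne_eq, OfNat.ofNat_ne_zero, not_false_eq_true, zero_pow,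
      Finset.sum_const_zero] at h1
    exact (pow_pos (tow.pos _ _ (hne p)) N).ne' h1) hu
  obtain ⟨No⟩ := exists_noe (K := K) (inc := T2.inc) (ν := ν)
    (z := fun x : Fin (Fintype.card α) × Fin nb => ρ x.1 * r x.2) (fun c => T2.inc_eq c)
    (eq_top_iff.2 (gen ▸ Algebra.adjoin_mono subset_union_right)) T2.X.frac T2.toRel.basis
  obtain ⟨hJ, hη⟩ := Plu.change d.B.dual B.dual (Equiv.refl Unit) d.plu
  have h0 : (d.η : K) ≠ 0 := fun h => d.unit.ne_zero (Subtype.ext h)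
  obtain ⟨d', h, L, hP, hΔ', h1, h2, h3, ⟨h4, h5⟩, h6⟩ := Dat.of_fam_gen d.hK d.hM d.ac T2 d.hm d.hk
    d.hr (τ := fun i => Subalgebra.inclusion (S.leX.trans L2.le) (d.τ i))
    (Rel.dx_eq_of_x (hx.trans S.x_eq) ▸ d.span) d.ind (div_ne_zero h0 (pow_ne_zero _ hJ)) hη
    (insert (No.h : K) s) (T2.toRel.exists_mp T.toRel hx)
  have S1 : d'.T.toRel.Sub T.toRel := by
    refine ⟨L.base.le, L2.le.trans L.top.le, L.x.trans hx, L.base.emb, L.base.same, fun b H hH => ?_⟩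
    obtain ⟨u, hu, e⟩ := hP b (b.res L.base.j) fun φ => ⟨Iff.rfl, rfl⟩
    rw [L.int b hH, ← hu.lintegral_comp (f := fun p => H p.1.ev)
      (hH.comp (Pt.measurable_ev'.comp measurable_subtype_coe))]
    exact lintegral_congr_ae (e.mono fun p hp => congrArg H hp.ev_eq)
  have ht2 : ∀ a ∈ t1, a ∈ d'.T.X.O ∧ a⁻¹ ∈ d'.T.X.O := fun a ha =>
    ⟨S1.leX (ht1 a ha).1, S1.leX (ht1 a ha).2⟩
  refine ⟨d', ⟨S1.trans S, h1, h2, h4, h5, Equiv.refl Unit, ?_⟩, fun i => (L.z i).trans (hz i),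
    fun a ha => h6 a (Finset.mem_insert_of_mem ha),
    fun a ha => ht2 a (Finset.mem_insert_of_mem (Finset.mem_union_left _ ha)),
    fun i φ hφ => ?_, fun i => ?_, ?_⟩
  · simp only [L.z, h3, div_mul_cancel₀ _ (pow_ne_zero _ hJ)]
  · obtain ⟨c, c0, hc⟩ := hA i φ hφ
    exact ⟨L.base.j c, fun e => c0 (Subtype.ext (congrArg Subtype.val e :)), S1.leX hc⟩
  · obtain ⟨n, hn⟩ := he i (T.toRel.px Δ)
    have u1 : IsUnit (L2.j (e i)) := hE _ (Finset.mem_filter.2 ⟨Finset.mem_union_right _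
      (Finset.mem_image_of_mem _ (Finset.mem_univ i)), e0 i⟩)
    refine ⟨L.top.j (L2.j (e i) ^ (n + 1) * L2.j (T.toRel.px Δ)),
      ((u1.pow _).mul L2.unit).map _, ?_, fun φ => ?_⟩
    · have := mul_mem (eA i) hn
      convert this using 1
      simp only [Subalgebra.coe_inclusion, MulMemClass.coe_mul, SubmonoidClass.coe_pow]
      ring
    · obtain ⟨k, a, ha⟩ := L.top.inl φ φ.2
      obtain ⟨l, a', ha'⟩ := L2.inl a a.2
      obtain ⟨n', hn'⟩ := he i a'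
      have k0 : algebraMap K M h ≠ 0 := T2.inc_eq h ▸ L.top.ne'
      refine ⟨n' + l, ?_⟩
      have := mul_mem (mul_mem (mul_mem hn' (pow_mem hn n')) (pow_mem (eA i) ((n + 1) * l)))
        (pow_mem ((A i).algebraMap_mem (h : K)⁻¹) k)
      convert this using 1
      rw [← ha', ← ha, map_inv₀]
      simp only [Subalgebra.coe_inclusion, MulMemClass.coe_mul, SubmonoidClass.coe_pow, T2.inc_eq,
        inv_pow]
      field_simp
      ring
  · obtain ⟨C, hC, hs⟩ := Ge.siz_res (B := B) (B' := d'.B) L.base.j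
    obtain ⟨K', M', tow'⟩ := tow.map (ev' := fun b : Pt d'.B.O => (b.hom : d'.B.O →+* ℂ))
      (L.base.j : B.O →+* d'.B.O) (fun b => b.res L.base.j) (fun _ => rfl) B.siz_nonneg
      d'.B.siz_nonneg hC hs
    obtain ⟨No', hN'⟩ := No.loc L
      (z' := fun x : Fin (Fintype.card α) × Fin nb => L.top.j (ρ x.1) * L.top.j (r x.2))
      fun x => (map_mul _ _ _).symm
    obtain ⟨U⟩ := No'.exists_uni (Classical.arbitrary ν)
    have hτ : (d'.τ0 : M) = d.τ0 := h5 _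
    have τ1 : (d.τ0 : M) ≠ 0 := d.ind.ne_zero _
    rw [hΔ] at hΔ'
    refine ⟨{ Δ := _, Λ := _, Kc := K', Mc := M', tow := tow', dvd := hΔ' ▸ dvd_rfl
              Δu := hΔ' ▸ d'.T.finX.unit
              τu := isUnit_of_inv_mem (fun e => τ1 (hτ ▸ congrArg Subtype.val e))
                (hτ ▸ (ht2 _ (Finset.mem_insert_self _ _)).2)
              na := _, nb := nb, N := N, Npos := hN, ρ := fun a => L.top.j (ρ a)
              r := fun j => L.top.j (r j), ρΛ := fun p => ?_, ru := fun j => (ru j).map _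
              one := fun p => ?_, No := No', hu := ?_, j0 := _, U := U }⟩
    · have a1 : (p.res d'.T.inc).res L.base.j = (p.res L.top.j).res T2.inc :=
        Pt.ext fun a => congrArg p (L.comm a)
      have a2 : d'.fx p = fun i => p.res L.top.j (T2.X.z (Sum.inr i)) :=
        funext fun i => congrArg p (Subtype.ext (congrFun L.x i))
      rw [a1, a2]
      exact hρ _
    · simp only [← map_mul]
      exact one (p.res L.top.j)
    · rw [hN']
      exact isUnit_of_inv_mem (fun e => No.ne (Subtype.ext (congrArg Subtype.val e :)))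
        (h6 _ (Finset.mem_insert_self _ _)).2

end

end Pool.Agent.Lib.MP_5c318e_ag
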