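import Pool.Agent.Lib.MP_5c318e_ag.D.Ex

/-! Exact localisation of a family at a polynomial in the fibre coordinates. -/

set_option autoImplicit false
set_option linter.unusedSectionVars false

namespace Pool.Agent.Lib.MP_5c318e_ag

open MeasureTheory Set Filter Topology Matrix
open scoped ENNReal

noncomputable section

/-- the discriminant may be replaced by a multiple that is a unit -/
def Fini.reΔ {R O ν : Type} [CommRing R] [Algebra ℂ R] [CommRing O] [Algebra ℂ O]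
    {inc : R →ₐ[ℂ] O} {x : ν → O} (Φ : Fini inc x) (Δ c : MvPolynomial ν R) (n : ℕ) (ne : Δ ≠ 0)
    (hc : Δ ^ n = Φ.Δ * c) (unit : IsUnit (MvPolynomial.eval₂ (inc : R →+* O) x Δ)) :
    Fini inc x where
  Δ := Δ
  f := Φ.f
  w := Φ.w
  monic := Φ.monic
  unit := unit
  root := Φ.root
  gen φ := by
    obtain ⟨P, j, e⟩ := Φ.gen φ
    refine ⟨Polynomial.C (c ^ j) * P, n * j, ?_⟩
    rw [Polynomial.eval₂_mul, Polynomial.eval₂_C, ← e, pow_mul, ← MvPolynomial.eval₂_pow, hc,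
      MvPolynomial.eval₂_mul, map_pow, MvPolynomial.coe_eval₂Hom]
    ring
  ne := ne
  ex b a s h1 h2 := Φ.ex b a s (fun e => pow_ne_zero n h1 (by
    rw [← MvPolynomial.eval₂_pow, hc, MvPolynomial.eval₂_mul, e, zero_mul])) h2
  cert := by
    obtain ⟨A, B, j, e⟩ := Φ.cert
    refine ⟨A * Polynomial.C (c ^ j), B * Polynomial.C (c ^ j), n * j, ?_⟩
    rw [← mul_assoc, ← mul_assoc, ← add_mul, e, ← map_mul, ← mul_pow, ← hc, pow_mul]

variable {δ ν K M : Type} [Fintype δ] [DecidableEq δ] [Fintype ν] [DecidableEq ν]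
  [Field K] [Algebra ℂ K] [Field M] [Algebra ℂ M] [Algebra K M] [IsScalarTower ℂ K M]

/-- a polynomial in the fibre coordinates -/
abbrev Rel.px {B : Cht δ K} (T : Rel B ν M) (q : MvPolynomial ν B.O) : T.X.O :=
  MvPolynomial.eval₂ (T.inc : B.O →+* T.X.O) (fun i => T.X.z (Sum.inr i)) q

theorem Rel.px_coe {B : Cht δ K} (T : Rel B ν M) (q : MvPolynomial ν B.O) :
    (T.px q : M) = MvPolynomial.aeval T.x (MvPolynomial.map (algebraMap B.O K) q) := by
  induction q using MvPolynomial.induction_on with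
  | C c => simpa [Rel.px] using T.inc_eq c
  | add p q hp hq => simp only [Rel.px, MvPolynomial.eval₂_add, map_add] at *; rw [← hp, ← hq]; rfl
  | mul_X q i hq =>
    simp only [Rel.px, MvPolynomial.eval₂_mul, MvPolynomial.eval₂_X, map_mul, MvPolynomial.map_X,
      MvPolynomial.aeval_X] at *
    rw [← hq]; rfl

theorem Rel.px_ne {B : Cht δ K} (T : Rel B ν M) {q : MvPolynomial ν B.O} (hq : q ≠ 0) :
    T.px q ≠ 0 := fun e => hq (MvPolynomial.map_injective (algebraMap B.O K) Subtype.val_injective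
      (T.basis.1 (by rw [← T.px_coe, e, map_zero, map_zero]; rfl)))

theorem Rel.px_pt {B : Cht δ K} (T : Rel B ν M) (q : MvPolynomial ν B.O) (p : Pt T.X.O) :
    p (T.px q) = MvPolynomial.eval₂ ((p.res T.inc).hom : B.O →+* ℂ)
      (fun i => p (T.X.z (Sum.inr i))) q :=
  MvPolynomial.eval₂_comp_left (p.hom : T.X.O →+* ℂ) _ _ q

/-- a nonzero element divides a nonzero polynomial in the fibre coordinates -/
theorem Rel.exists_dvd {B : Cht δ K} (T : Rel B ν M) {h : T.X.O} (h0 : h ≠ 0) :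
    ∃ q : MvPolynomial ν B.O, q ≠ 0 ∧ h ∣ T.px q := by
  obtain ⟨g, t, hg, e⟩ := T.X.exists_dvd h0
  let F : MvPolynomial (δ ⊕ ν) ℂ →ₐ[ℂ] MvPolynomial ν B.O :=
    MvPolynomial.aeval (Sum.elim (fun i => MvPolynomial.C (B.z i)) MvPolynomial.X)
  have key : ∀ g, T.px (F g) = MvPolynomial.aeval T.X.z g := fun g => by
    induction g using MvPolynomial.induction_on with
    | C c =>
      simp only [F, MvPolynomial.algHom_C, MvPolynomial.algebraMap_apply, Rel.px,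
        MvPolynomial.eval₂_C]
      exact T.inc.commutes c
    | add p q hp hq => simp only [Rel.px, map_add, MvPolynomial.eval₂_add] at *; rw [hp, hq]
    | mul_X q i hq =>
      simp only [Rel.px, map_mul, MvPolynomial.eval₂_mul, MvPolynomial.aeval_X] at *
      rw [hq]
      rcases i with i | i
      · simp [F, T.zy]
      · simp [F]
  refine ⟨F g, fun e' => T.X.aeval_ne hg ?_, t, by rw [key, e]⟩
  rw [← key, e']
  exact MvPolynomial.eval₂_zero _ _

/-- inverting a multiple of the discriminant -/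
theorem Fam.exists_locX {B : Cht δ K} (T : Fam B ν M) {Δ : MvPolynomial ν B.O} (h0 : Δ ≠ 0)
    (hd : T.finX.Δ ∣ Δ) : ∃ T' : Fam B ν M, IsLoc T.X.O T'.X.O (T.toRel.px Δ) ∧
      T'.toRel.x = T.toRel.x ∧ T'.finX.Δ = Δ := by
  obtain ⟨X', L, hX⟩ := T.X.exists_isLoc (T.toRel.px_ne h0)
  obtain ⟨T', rfl⟩ := Rel.of_cht B X' (fun a ha => L.le (by
    rw [← T.inc_eq ⟨a, ha⟩]; exact (T.inc ⟨a, ha⟩).2)) fun i => by rw [hX, T.toRel.zy_coe]
  have hc : ∀ a, T'.inc (AlgHom.id ℂ B.O a) = L.j (T.inc a) := fun a =>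
    Subtype.ext ((T'.inc_eq _).trans (T.inc_eq a).symm)
  have e : (fun i => T'.X.z (Sum.inr i)) = fun i => L.j (T.X.z (Sum.inr i)) :=
    funext fun i => Subtype.ext (hX _)
  have e2 : MvPolynomial.map (σ := ν) (AlgHom.id ℂ B.O : B.O →+* B.O) = RingHom.id _ :=
    RingHom.ext fun q => MvPolynomial.map_id q
  have e1 : MvPolynomial.eval₂ (T'.inc : B.O →+* T'.X.O) (fun i => L.j (T.X.z (Sum.inr i))) Δ =
      L.j (T.toRel.px Δ) := by
    have := RingHom.congr_fun (loc_hom hc fun i => T.X.z (Sum.inr i)) Δ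
    rwa [e2] at this
  have H : ∃ Ψ : Fini T'.inc fun i => T'.X.z (Sum.inr i), Ψ.Δ = Δ := by
    rw [e]
    obtain ⟨c, hc'⟩ := hd
    refine ⟨(T.finX.loc hc Δ ?_ (e1 ▸ L.unit) (fun φ => ?_) fun b p hp h1 => ?_).reΔ Δ c 2 h0 ?_
      (e1 ▸ L.unit), rfl⟩
    · rw [e2]; exact mul_ne_zero T.finX.ne h0
    · obtain ⟨k, a, ha⟩ := L.inl φ φ.2
      exact ⟨a, 1, k, by rw [e1, map_one, one_mul]; exact Subtype.ext ha⟩
    · have hb : p.res T.inc = b := hp
      have h2 : p (T.toRel.px Δ) ≠ 0 := by rw [T.toRel.px_pt, hb]; exact h1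
      refine ⟨L.up p h2, Pt.ext fun a => ?_, L.dn_up p h2⟩
      exact (congrArg (L.up p h2) (hc a)).trans
        ((DFunLike.congr_fun (L.dn_up p h2) _).trans (DFunLike.congr_fun hb a))
    · show Δ ^ 2 = MvPolynomial.map (AlgHom.id ℂ B.O : B.O →+* B.O) T.finX.Δ * Δ * c
      rw [e2, RingHom.id_apply, mul_right_comm, ← hc', sq]
  obtain ⟨Ψ, hΨ⟩ := H
  exact ⟨⟨T', T.finB, Ψ⟩, L, funext fun i => hX _, hΨ⟩

/-- a family becomes a set-up after one function on the base is inverted; the discriminant is kept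
and a property of general points holds everywhere -/
theorem Dat.of_fam_gen (hK : SmoothModel ℂ K) (hM : SmoothModel K M)
    (hc : ∀ x : M, IsAlgebraic K x → x ∈ range (algebraMap K M)) {B : Cht δ K} (T : Fam B ν M)
    {m k r : ℕ} (hm : 3 ≤ m) (hk : 0 < k) (hr : 0 < r) {τ : Fin r → T.X.O}
    (hs : ∀ φ, Plu T.dx m φ ↔ φ ∈ Submodule.span K (range fun i => (τ i : M)))
    (hi : LinearIndependent K fun i => (τ i : M)) {η : K} (h0 : η ≠ 0) (hη : Plu B.der k η)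
    (s : Finset K) {P : Pt B.O → Prop} (hgen : ∀ᶠ b in B.D.gen, P b) :
    ∃ (d : Dat δ K ν M) (h : B.O) (L : d.T.toRel.Loc T.toRel h),
      (∀ b : Pt d.B.O, P (b.res L.base.j)) ∧
      d.T.finX.Δ = MvPolynomial.map (L.base.j : B.O →+* d.B.O) T.finX.Δ ∧ d.m = m ∧ d.k = k ∧ (d.η : K) = η ∧
      (∃ e : d.r = r, ∀ i, (d.τ i : M) = τ (i.cast e)) ∧ ∀ a ∈ s, a ∈ d.B.O ∧ a⁻¹ ∈ d.B.O := by
  classical
  have : CharZero K := charZero_of_injective_algebraMap (algebraMap ℂ K).injective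
  have hm0 : 0 < m := by omega
  obtain ⟨Fr⟩ := hM.frames T.dual
  obtain ⟨FK⟩ := hK.frames B.dual
  have hP : ∀ i, Plu T.dx m (τ i : M) := fun i => (hs _).2 (Submodule.subset_span ⟨i, rfl⟩)
  obtain ⟨E, hE⟩ := Plu.zero_add_smul (d := B.der) k hk
  have := FK.finite B.dual B.fg k E fun φ hφ => (hE φ).1 hφ
  obtain ⟨s1, hs1⟩ := (Submodule.fg_iff_finiteDimensional E).2 this
  obtain ⟨P1, g1, H1⟩ := (T.up_B Fr hm0 hP).md (ι' := δ)
  obtain ⟨c, hc1, g2'⟩ := T.low hc hi (s := 2 / m) (by positivity)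
  obtain ⟨P2, g2, H2⟩ := hc1.md (ι' := δ)
  obtain ⟨c0, hc0, C, hC, hL⟩ := T.lct Fr hc hm0 hi hP
  obtain ⟨P3, g3, H3⟩ := hC.md (ι' := δ)
  have g4 : ∀ᶠ b in B.D.gen, ∀ a ∈ insert η (s ∪ s1), b.Reg a ∧ b.Reg a⁻¹ :=
    (eventually_all_finset _).2 fun a _ => (B.gen_reg a).and (B.gen_reg a⁻¹)
  obtain ⟨g, B', T', L, hb0, hΔ⟩ := T.exists_loc_gen
    ((g1.and (g2.and (g2'.and (g3.and (g4.and (T.gen_Δ.and (T.indep hc hi))))))).and hgen)
  have hb := fun b => (hb0 b).1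
  have hmem : ∀ a ∈ insert η (s ∪ s1), a ∈ B'.O ∧ a⁻¹ ∈ B'.O := fun a ha =>
    ⟨Pt.mem_of_reg fun b => (L.base.same b _).1.2 ((hb b).2.2.2.2.1 a ha).1,
      Pt.mem_of_reg fun b => (L.base.same b _).1.2 ((hb b).2.2.2.2.1 a ha).2⟩
  have hη' := hmem η (Finset.mem_insert_self _ _)
  have e1 : T'.dx = T.dx := Rel.dx_eq_of_x L.x
  have e2 : B'.der = B.der := B.der_eq B' L.z
  obtain ⟨v1, a1, b1⟩ := H1 B' L.base.j fun b => (hb b).1
  obtain ⟨v2, a2, b2⟩ := H2 B' L.base.j fun b => (hb b).2.1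
  obtain ⟨v3, a3, b3⟩ := H3 B' L.base.j fun b => (hb b).2.2.2.1
  refine ⟨{ hK := hK, hM := hM, B := B', T := T', m := m, hm := hm, r := r, hr := hr
            τ := fun i => L.top.j (τ i), span := e1 ▸ hs, ind := hi, k := k, hk := hk
            η := ⟨η, hη'.1⟩, unit := isUnit_of_inv_mem (fun e => h0 (congrArg Subtype.val e)) hη'.2
            plu := e2 ▸ hη, cov := fun b => ?_, indF := fun b U hU hne a ha => ?_
            up := ⟨v1, a1, fun b => le_trans (le_of_eq ?_) (b1 b)⟩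
            low := ⟨v2, a2, fun b a => le_trans ((hb b).2.2.1 a) (mul_le_mul' (b2 b) (le_of_eq ?_))⟩
            lct := ⟨c0, hc0, fun t t0 t1 Q hQ => ?_⟩, fin := ?_, ac := hc
            mem := fun η1 h1 => ?_ }, _, L, fun b => (hb0 b).2, hΔ, rfl, rfl, rfl,
    ⟨rfl, fun _ => rfl⟩,
    fun a ha => hmem a (Finset.mem_insert_of_mem (Finset.mem_union_left _ ha))⟩
  · rw [hΔ, MvPolynomial.map_map]
    exact (hb b).2.2.2.2.2.1
  · refine (hb b).2.2.2.2.2.2 (L.e b '' U) ((L.e b).isOpenMap U hU) (hne.image _) a ?_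
    rintro _ ⟨q, hq, rfl⟩
    exact ha q hq
  · exact L.lint b fun p => ‖fun i => p.1 (τ i)‖ₑ ^ (2 / m : ℝ)
  · exact (L.lint b fun p => ‖a ⬝ᵥ fun i => p.1 (τ i)‖ₑ ^ (2 / m : ℝ)).symm
  · obtain ⟨A, hA⟩ := a3.bdd hQ
    refine ⟨ENNReal.ofReal A, ENNReal.ofReal_ne_top, fun b hb' a ha => ?_⟩
    refine le_trans (le_of_eq (L.lint b fun p => ‖fun i => p.1 (τ i)‖ₑ ^ (2 / m + t : ℝ) *
      ‖a ⬝ᵥ fun i => p.1 (τ i)‖ₑ ^ (-t))) ((hL _ t t0 t1 a ha).trans ?_)
    exact mul_le_mul_left ((b3 b).trans (ENNReal.ofReal_le_ofReal (hA b hb'))) _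
  · obtain ⟨F'⟩ := hK.frames B'.dual
    refine lt_of_eq_of_lt (lintegral_congr fun b => ?_) (B'.front F' hk (e2 ▸ hη))
    rw [b.ev_of_mem hη'.1, ← ENNReal.ofReal_rpow_of_nonneg (norm_nonneg _) (by positivity),
      ofReal_norm]
  · have h2 : η1 ∈ Submodule.span ℂ (s1 : Set K) := hs1 ▸ (hE η1).2 (e2 ▸ h1)
    exact Submodule.span_le (p := B'.O.toSubmodule).2 (fun a ha =>
      (hmem a (Finset.mem_insert_of_mem (Finset.mem_union_right _ ha))).1) h2

end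

end Pool.Agent.Lib.MP_5c318e_ag
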